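import Mathlib
import Pool.Agent.H590.NL.Stm

/-!
# The volume product of the ball of `l_p^n` (helper225, after helper299)
-/

set_option autoImplicit false

noncomputable section

open MeasureTheory Filter Topology Set
open scoped BigOperators ENNReal

namespace H225NL

open H590NL

variable {n : ℕ}

/-- the unit ball, without the root -/
theorem ball_eq {p : ℝ} (hp : 1 < p) :
    {x : Fin n → ℝ | ∑ i, |x i| ^ p ≤ 1} = {x : Fin n → ℝ | (∑ i, |x i| ^ p) ^ (1 / p) ≤ 1} := by
  ext x
  have h0 : 0 ≤ ∑ i, |x i| ^ p := Finset.sum_nonneg fun i _ => Real.rpow_nonneg (abs_nonneg _) _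
  have hp0 : 0 < 1 / p := by positivity
  show ∑ i, |x i| ^ p ≤ 1 ↔ (∑ i, |x i| ^ p) ^ (1 / p) ≤ 1
  constructor
  · intro h
    exact Real.rpow_le_one h0 h hp0.le
  · intro h
    by_contra hc
    exact absurd h (not_le.2 (Real.one_lt_rpow (not_le.1 hc) hp0))

/-- the volume of the unit ball -/
theorem vol_ball {p : ℝ} (hp : 1 < p) :
    volume {x : Fin n → ℝ | ∑ i, |x i| ^ p ≤ 1} =
      ENNReal.ofReal ((2 * Real.Gamma (1 / p + 1)) ^ n / Real.Gamma (n / p + 1)) := by
  rcases Nat.eq_zero_or_pos n with rfl | hn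
  · have h1 : {x : Fin 0 → ℝ | ∑ i, |x i| ^ p ≤ 1} = univ := by
      ext x
      simp
    rw [h1, volume_pi, Measure.pi_empty_univ]
    simp
  · have : Nonempty (Fin n) := ⟨⟨0, hn⟩⟩
    rw [ball_eq hp, MeasureTheory.volume_sum_rpow_le (Fin n) hp.le 1]
    simp [Fintype.card_fin]

/-- the polar of the unit ball is contained in the dual ball -/
theorem polar_sub {p q : ℝ} (hp : 1 < p) (hq : q = p / (p - 1)) :
    {y : Fin n → ℝ | ∀ x : Fin n → ℝ, ∑ i, |x i| ^ p ≤ 1 → ∑ i, x i * y i ≤ 1} ⊆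
      {y : Fin n → ℝ | ∑ i, |y i| ^ q ≤ 1} := by
  intro y hy
  have hp1 : 0 < p - 1 := by linarith
  have hq1 : q - 1 = 1 / (p - 1) := by
    rw [hq]
    field_simp
    ring
  have hqp : (q - 1) * p = q := by
    rw [hq1, hq]
    field_simp
  have hq1' : 0 < q - 1 := by
    rw [hq1]
    positivity
  have hp0 : 0 < 1 / p := by positivity
  show ∑ i, |y i| ^ q ≤ 1
  obtain ⟨s, hs⟩ : ∃ s : ℝ, s = ∑ i, |y i| ^ q := ⟨_, rfl⟩
  rw [← hs]
  by_contra hc
  have hs1 : 1 < s := not_le.1 hc
  have hs0 : 0 < s := by linarith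
  have hr : 0 < s ^ (1 / p) := Real.rpow_pos_of_pos hs0 _
  have h1 := hy (fun i => (SignType.sign (y i) : ℝ) * (|y i| ^ (q - 1) / s ^ (1 / p))) ?_
  · have h2 : ∑ i, (SignType.sign (y i) : ℝ) * (|y i| ^ (q - 1) / s ^ (1 / p)) * y i =
        s / s ^ (1 / p) := by
      rw [hs, Finset.sum_div]
      refine Finset.sum_congr rfl fun i _ => ?_
      have e1 : |y i| ^ q = |y i| ^ (q - 1) * |y i| := by
        have := Real.rpow_add_one' (abs_nonneg (y i)) (y := q - 1) (by
          rw [sub_add_cancel]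
          linarith)
        rwa [sub_add_cancel] at this
      rw [e1]
      have e2 : (SignType.sign (y i) : ℝ) * y i = |y i| := sign_mul_self (y i)
      calc (SignType.sign (y i) : ℝ) * (|y i| ^ (q - 1) / (∑ i, |y i| ^ q) ^ (1 / p)) * y i
          = |y i| ^ (q - 1) * ((SignType.sign (y i) : ℝ) * y i) / (∑ i, |y i| ^ q) ^ (1 / p) := by
            ring
        _ = _ := by rw [e2]
    have h3 : s / s ^ (1 / p) ≤ 1 := by
      rw [← h2]
      exact h1
    rw [div_le_one hr] at h3
    have h4 : s ^ (1 / p) < s ^ (1 : ℝ) := by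
      refine Real.rpow_lt_rpow_of_exponent_lt hs1 ?_
      rw [div_lt_one (by linarith)]
      exact hp
    rw [Real.rpow_one] at h4
    linarith
  · have h2 : ∀ i, |(SignType.sign (y i) : ℝ) * (|y i| ^ (q - 1) / s ^ (1 / p))| ^ p ≤
        |y i| ^ q / s := by
      intro i
      have e0 : 0 ≤ |y i| ^ (q - 1) / s ^ (1 / p) :=
        div_nonneg (Real.rpow_nonneg (abs_nonneg _) _) hr.le
      have e1 : |(SignType.sign (y i) : ℝ)| ≤ 1 := by
        rcases lt_trichotomy (y i) 0 with h | h | h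
        · rw [sign_neg h]
          simp
        · rw [h, sign_zero]
          simp
        · rw [sign_pos h]
          simp
      have e2 : |(SignType.sign (y i) : ℝ) * (|y i| ^ (q - 1) / s ^ (1 / p))| ≤
          |y i| ^ (q - 1) / s ^ (1 / p) := by
        rw [abs_mul, abs_of_nonneg e0]
        exact mul_le_of_le_one_left e0 e1
      refine (Real.rpow_le_rpow (abs_nonneg _) e2 (by linarith)).trans (le_of_eq ?_)
      rw [Real.div_rpow (Real.rpow_nonneg (abs_nonneg _) _) hr.le, ← Real.rpow_mul (abs_nonneg _),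
        hqp, ← Real.rpow_mul hs0.le, one_div_mul_cancel (by linarith), Real.rpow_one]
    refine (Finset.sum_le_sum fun i _ => h2 i).trans (le_of_eq ?_)
    rw [← Finset.sum_div, ← hs, div_self hs0.ne']

theorem BP : S_BP := by
  intro n p q hp hp2 hq
  have hp1 : 0 < p - 1 := by linarith
  have hq1 : 1 < q := by
    rw [hq, lt_div_iff₀ hp1]
    linarith
  have hiq : 1 / q = 1 - 1 / p := by
    rw [hq]
    field_simp
  have hq0 : 0 < q := by linarith
  have h1 : volume {y : Fin n → ℝ | ∀ x : Fin n → ℝ, ∑ i, |x i| ^ p ≤ 1 → ∑ i, x i * y i ≤ 1} ≤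
      ENNReal.ofReal ((2 * Real.Gamma (1 / q + 1)) ^ n / Real.Gamma (n / q + 1)) := by
    rw [← vol_ball hq1]
    exact measure_mono (polar_sub hp hq)
  have hg : Real.Gamma (1 / q + 1) = 1 / q * Real.Gamma (1 - 1 / p) := by
    rw [Real.Gamma_add_one (by positivity), hiq]
  have hG1 : 0 < Real.Gamma (n / p + 1) := Real.Gamma_pos_of_pos (by positivity)
  have hG2 : 0 < Real.Gamma (n / q + 1) := Real.Gamma_pos_of_pos (by positivity)
  have hG3 : 0 < Real.Gamma (1 / p + 1) := Real.Gamma_pos_of_pos (by positivity)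
  rw [vol_ball hp]
  refine (mul_le_mul_right h1 _).trans ?_
  rw [← ENNReal.ofReal_mul (by positivity)]
  refine ENNReal.ofReal_le_ofReal (le_of_eq ?_)
  rw [hg, add_comm (1 / p) 1]
  have h2 : (2 * (1 / q * Real.Gamma (1 - 1 / p))) ^ n =
      (2 * Real.Gamma (1 - 1 / p)) ^ n / q ^ n := by
    rw [← div_pow]
    congr 1
    ring
  rw [h2]
  field_simp

end H225NL
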